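import Pool.Agent.Helper19.HN.St

/-!
# Project HN, module SDF: the stationarity of the sets `Sd` is definable
-/

namespace Pool.Agent.Helper67.HN.SDF

open Ordinal Cardinal ZFSet Order Pool.Agent.Helper73.HODC Pool.Agent.Helper73.HM
open Pool.Agent.Helper73.HE Pool.Agent.Helper73.HU Pool.Agent.Helper19.HN

/-- equality of cuts -/
theorem dp_cutEq (i j k : ℕ) :
    DP (fun v => cut (v i) (v k).rank = cut (v j) (v k).rank) := by
  refine (DP.ex (Q := fun x v => x = cut (v i) (v k).rank ∧ x = cut (v j) (v k).rank)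
    ((dp_cut (i + 1) (k + 1) 0).and (dp_cut (j + 1) (k + 1) 0))).congr fun v => ?_
  constructor
  · intro h
    exact ⟨_, rfl, h⟩
  · rintro ⟨x, h1, h2⟩
    rw [← h1, h2]

theorem rank_succ_iff (a : Ordinal.{0}) (s : ZFSet.{0}) :
    s.rank = a + 1 ↔ a < s.rank ∧ ¬ ∃ t : ZFSet.{0}, a < t.rank ∧ t.rank < s.rank := by
  constructor
  · intro h
    refine ⟨?_, ?_⟩
    · rw [h]
      exact Order.lt_add_one_iff.2 le_rfl
    · rintro ⟨t, h1, h2⟩
      rw [h] at h2
      exact absurd (Order.lt_add_one_iff.1 h2) (not_le.2 h1)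
  · rintro ⟨h1, h2⟩
    refine le_antisymm ?_ (Order.add_one_le_iff.2 h1)
    by_contra h3
    rw [not_le] at h3
    refine h2 ⟨(a + 1).toZFSet, ?_, ?_⟩
    · rw [rank_toZFSet]
      exact Order.lt_add_one_iff.2 le_rfl
    · rw [rank_toZFSet]
      exact h3

/-- equality of cuts at the successor -/
theorem dp_cutEqS (i j k : ℕ) :
    DP (fun v => cut (v i) ((v k).rank + 1) = cut (v j) ((v k).rank + 1)) := by
  refine (DP.ex (Q := fun s v => ((v k).rank < s.rank ∧
    ¬ ∃ t : ZFSet.{0}, (v k).rank < t.rank ∧ t.rank < s.rank) ∧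
      cut (v i) s.rank = cut (v j) s.rank) ?_).congr fun v => ?_
  · refine ((DP.rank_lt (k + 1) 0).and (DP.not ?_)).and (dp_cutEq (i + 1) (j + 1) 0)
    exact DP.ex (Q := fun t v => (v (k + 1)).rank < t.rank ∧ t.rank < (v 0).rank)
      ((DP.rank_lt (k + 2) 0).and (DP.rank_lt 0 1))
  · constructor
    · intro h
      refine ⟨((v k).rank + 1).toZFSet, (rank_succ_iff _ _).1 (rank_toZFSet _), ?_⟩
      rw [rank_toZFSet]
      exact h
    · rintro ⟨s, h1, h2⟩
      rw [(rank_succ_iff _ _).2 h1] at h2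
      exact h2

theorem sdf (h : StLDF) : StSDF := by
  intro c τ A z w u y hτ hA hz hw hu hL
  have h1 : DP (fun v => cut (v 1) (v 2).rank = cut u (v 2).rank) :=
    dp_subst (Q := fun u v => cut (v 1) (v 2).rank = cut u (v 2).rank) hu (dp_cutEq 2 0 3)
  have h2 : DP (fun v => cut (v 1) ((v 2).rank + 1) = cut u ((v 2).rank + 1)) :=
    dp_subst (Q := fun u v => cut (v 1) ((v 2).rank + 1) = cut u ((v 2).rank + 1)) hu
      (dp_cutEqS 2 0 3)
  have h3 := h τ A (Kz τ A w) y (fun g q v => lt g q (vv c z g) ∧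
    cut q (v 0).rank = cut u (v 0).rank ∧ cut q ((v 0).rank + 1) ≠ cut u ((v 0).rank + 1))
    hτ hA (dp_Kz hA τ hw 0) hL ((dp_ltvv c hz 0 1).and (h1.and h2.not))
  refine h3.congr fun v => ?_
  have h4 : Sd c A z y u (v 0).rank = {g | g ∈ A ∧ y g ∈ hodPow g ∧
      (lt g (y g) (vv c z g) ∧ cut (y g) (v 0).rank = cut u (v 0).rank ∧
        cut (y g) ((v 0).rank + 1) ≠ cut u ((v 0).rank + 1))} := by
    ext g
    constructor
    · rintro ⟨⟨h5, h6⟩, h7⟩
      exact ⟨h5, h6.1, h6, h7⟩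
    · rintro ⟨h5, _, h6, h7⟩
      exact ⟨⟨h5, h6⟩, h7⟩
  rw [h4]

end Pool.Agent.Helper67.HN.SDF

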